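import Pool.Agent.N798.S2.Fi
import Pool.Agent.N199.S2.TII
import Pool.Agent.N521.S2.TI
import Pool.Agent.N459.S2.LV
import Pool.Agent.N93.S2.LP
import Pool.Agent.N233.S2.VR
import Pool.Agent.N195.S2.PB
import Pool.Agent.N617.S2.PHP
import Pool.Agent.N713.S2.PN

set_option autoImplicit false

/-! Project S2: putting the parts together. -/

namespace Pool.Agent.N798.S2

open Finset MeasureTheory Filter Topology

theorem wtP : Pool.Agent.N798.T.Wt (fun n => if n.Prime then 1 else 0) 1 :=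
  Pool.Agent.N31.T.wp Pool.Agent.Y957.VK.lam_all Pool.Agent.N765.T.wo

theorem blP : Pool.Agent.N798.S.S_BL :=
  Pool.Agent.N768.S.bl Pool.Agent.N701.S.vd Pool.Agent.N933.S.pv Pool.Agent.N75.S.spl

theorem pbP : S_PB :=
  Pool.Agent.N195.S2.PB.pb (Pool.Agent.N459.S2.lv (Pool.Agent.N521.S2.ti blP) (Pool.Agent.N199.S2.TII.tii blP))
    Pool.Agent.N798.S2.lp2 Pool.Agent.N233.S2.vr wtP

theorem phpP : S_PHP := Pool.Agent.N617.S2.php pbP Pool.Agent.N803.S.lp

theorem pnP : S_PN := Pool.Agent.N713.S2.PN.pn wtP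

end Pool.Agent.N798.S2
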