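import Pool.Agent.N798.S2.RS

set_option autoImplicit false
set_option maxHeartbeats 1000000

/-! Project S2: the centred sums, with a weight at the root. -/

namespace Pool.Agent.N798.S2

open Finset MeasureTheory Filter Topology
open scoped ENNReal
open Pool.Agent.H376R2.MR (er)
open Pool.Agent.N798.T
open Pool.Agent.N798.S (nv SW CS nv_meas nv_congr SW_meas SW_le SW_upd SW_succ window2 fin_bd2 CS_snoc CS_meas ap wtp
  xs xs_nonneg xs_le xs_cast xs_congr xs_succ logx2 ys CS_eq ms ms_congr ms_succ sz_of ys_slow slow log_tend)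

theorem ce3 (hf0 : S_F0) (hfd : S_FD) (hpl : S_PL) (g : ℕ → ℂ) (hg : ∀ n, ‖g n‖ ≤ 1) (a : ℕ → ℕ → ℂ) (e : ℕ → ℕ) (b : ℕ → ℤ) (L : ℕ → ℕ → ℝ)
    (s : ℕ → ℝ) (k A J : ℕ) (w : ℕ → ℕ → ℕ → ℝ) (N0 : ℕ) (d : ℕ → ℝ)
    (hW : ∀ v, Wt (a v) (e v)) (hd : ∀ v, 0 < d v)
    (hsz : ∀ v, ∃ (B : ℝ) (n0 : ℕ), 1 ≤ n0 ∧ ∀ n : ℕ, n0 ≤ n → |L v n - d v * Real.log n| ≤ B)
    (hw0 : ∀ N v, w N 0 v = d v)
    (hA : ∀ v < k, 2 * d v + 1 ≤ A) (j : ℕ) (hj : j < k) (hReg : VReg g a b L s k A J w N0 j) (K : ℕ) :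
    ∃ (D : ℝ) (N2 : ℕ), 0 ≤ D ∧ 2 ≤ N2 ∧ ∀ N N' : ℕ, N2 ≤ N → N ≤ N' → N' ≤ 2 * N →
      ∫⁻ ω, ‖∑ n ∈ Ioc N N', (g n * CS a e b L s j ω n)‖ₑ ^ 2 ∂(mu (j + 1)) ≤
        ENNReal.ofReal (D * N ^ 2 / (Real.log N) ^ K) := by
  obtain ⟨y0, R, n0, hR, hn0, hwin⟩ := window2 (d j) (hd j) (s j) (L j) (hsz j)
  set Cw := d j with hCw'
  have hCw : 0 < Cw := hd j
  obtain ⟨K1, D1, hD1, hR1⟩ := hReg K
  obtain ⟨CF, hF⟩ := hf0 (a j) (e j) (hW _) (b j) (K1 + K) (K1 + 1) R hR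
  obtain ⟨N1, hN12, hev⟩ := evN Cw y0 ((2 / Cw) ^ (K1 + 1) / Cw) K hCw (max n0 N0)
  set W : ℝ := 2 * (2 * (Real.exp (y0 + R) + 1) + 4) ^ 2 with hWdef
  set D := 2 / Cw * CF ^ 2 * (2 / Cw) ^ (K1 + K) + W + 4 * R * D1 with hD
  have hD0 : 0 ≤ D := by positivity
  refine ⟨D, N1, hD0, hN12, fun N N' hge hNN hN' => ?_⟩
  have hN : 2 ≤ N := hN12.trans hge
  have hNr : (1:ℝ) ≤ N := by exact_mod_cast (by omega : 1 ≤ N)
  have hN0r : (0:ℝ) < N := by linarith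
  have hlog : 0 < Real.log N := Real.log_pos (by exact_mod_cast (by omega : 1 < N))
  obtain ⟨h0', hY1, hY2, hY3, hl2, hlX, hlK⟩ := hev N hge
  have h0 : n0 ≤ N := (le_max_left _ _).trans h0'
  have h0N : N0 ≤ N := (le_max_right _ _).trans h0'
  set l := Real.log (N:ℝ) with hl
  set Y := Cw * l + y0 with hY
  have hYpos : 0 < Y := by linarith
  have hmeas : Measurable fun ω : Fin (j + 1) → ℝ => ‖∑ n ∈ Ioc N N', (g n * CS a e b L s j ω n)‖ₑ ^ 2 :=
    (Finset.measurable_fun_sum _ fun n _ => (CS_meas n).const_mul (g n)).enorm.pow_const 2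
  rw [lint_succ _ hmeas]
  set h : ℝ → ℂ := fun y => a j (vl (b j) (Real.exp y)) - ((1 / y ^ (e j) : ℝ) : ℂ) with hh
  have hhm : Measurable h := by
    refine Measurable.sub ?_ ?_
    · exact (measurable_of_countable (a j)).comp ((vl_meas _).comp Real.measurable_exp)
    · exact Complex.measurable_ofReal.comp (Measurable.const_div (measurable_id.pow_const _) 1)
  have hh1 : ∀ y ∈ Set.Icc Y (Y + R), ‖h y‖ ≤ 2 := by
    intro y hy
    have hy1 : 1 ≤ y := hY1.trans hy.1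
    simp only [hh]
    refine (norm_sub_le _ _).trans ?_
    have h2 : ‖((1 / y ^ (e j) : ℝ) : ℂ)‖ ≤ 1 := by
      rw [Complex.norm_real, Real.norm_of_nonneg (by positivity), div_le_one (by positivity)]
      exact one_le_pow₀ hy1
    linarith [(hW j).le_one (vl (b j) (Real.exp y))]
  have hEq : ∀ ω : Fin j → ℝ, ∫⁻ u in Set.Icc (0:ℝ) 1,
      ‖∑ n ∈ Ioc N N', (g n * CS a e b L s j (Fin.snoc ω u : Fin (j + 1) → ℝ) n)‖ₑ ^ 2 =
      ∫⁻ u in Set.Icc (0:ℝ) 1, ‖∑ n ∈ Ioc N N', SV g a b L s k j ω n (Function.update (fun _ => 0) j 0) *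
        h (u + (s j + L j n))‖ₑ ^ 2 := by
    intro ω
    refine setLIntegral_congr_fun measurableSet_Icc fun u hu => ?_
    congr 2
    refine Finset.sum_congr rfl fun n hn => ?_
    rw [CS_snoc hj ω u hu n, SV, mul_assoc]
  rw [lintegral_congr hEq]
  set V := 2 * (Real.exp (Y + R) + 1) + 4 with hV
  have hV0 : 0 ≤ V := by positivity
  have hTp : (1:ℝ) ≤ (N:ℝ) ^ A := one_le_pow₀ hNr
  have hjm : j ∈ range k := Finset.mem_range.mpr hj
  have hA2 : 2 * Cw + 1 ≤ (A:ℝ) := hA j hj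
  have hlK1 : 0 < l ^ K1 := by positivity
  have hcore := core3 (g := g) (a := a) (b := b) (L := L) (s := s) (k := k) (j := j) hpl hg (fun v n => (hW v).le_one n) hj
    (fun _ => 0) N N' hN' h hhm Y R hR hh1 (fun n hn u hu => hwin N N' h0 hN' n hn u hu)
    V hV0 (fun η hη => (hfd (a j) (b j) (e j) (hW _).le_one Y (Y + R) 0 η hY1 (by linarith) hη).2)
    ((N:ℝ) ^ A) (|CF| / Y ^ (K1 + K)) (D1 * (N:ℝ) ^ 2 / l ^ K) (-(l ^ K1 / Cw)) (l ^ K1 / Cw) hTp
    (by positivity) (by positivity) (by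
      have : 0 < l ^ K1 / Cw := by positivity
      linarith) ?_ ?_
  · refine hcore.trans (ENNReal.ofReal_le_ofReal ?_)
    exact fin_bd2 (CF := CF) (D1 := D1) (V := V) (T := (N:ℝ) ^ A) (K := K) (K1 := K1) hCw hR hl2 hNr hY1 hY2 hlK rfl rfl rfl
      hV0 W (VT_bd hNr hCw hA2 hV) (by positivity) (le_of_eq (by ring))
  · intro η hη _
    have hη1 : |η| ≤ Y ^ (K1 + 1) := by
      have h1 : |η| ≤ l ^ K1 / Cw := abs_le.mpr ⟨hη.1, hη.2⟩
      refine h1.trans ?_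
      have h2 : (Cw / 2 * l) ^ (K1 + 1) ≤ Y ^ (K1 + 1) := pow_le_pow_left₀ (by positivity) hY2 _
      refine le_trans ?_ h2
      rw [mul_pow, pow_succ l K1]
      have h3 : 0 < (Cw / 2) ^ (K1 + 1) := by positivity
      have h4 := mul_le_mul_of_nonneg_left hlX h3.le
      have h5 : (Cw / 2) ^ (K1 + 1) * ((2 / Cw) ^ (K1 + 1) / Cw) = 1 / Cw := by
        rw [← mul_div_assoc, ← mul_pow]
        congr 1
        have : Cw / 2 * (2 / Cw) = 1 := by field_simp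
        rw [this, one_pow]
      rw [h5] at h4
      have h7 := mul_le_mul_of_nonneg_left h4 hlK1.le
      calc l ^ K1 / Cw = l ^ K1 * (1 / Cw) := by ring
        _ ≤ l ^ K1 * ((Cw / 2) ^ (K1 + 1) * l) := h7
        _ = _ := by ring
    have h1 := hF Y Y (Y + R) η hY1 le_rfl (by linarith) le_rfl hη1
    refine h1.trans ?_
    gcongr
    exact le_abs_self _
  · intro η hηT hη
    refine hR1 N N' _ h0N hNN hN' (fun v hv => ?_) ⟨0, Nat.zero_le _, ?_⟩
    · by_cases hvj : v = j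
      · rw [hvj, Function.update_self]; exact hηT
      · rw [Function.update_of_ne hvj, abs_zero]; positivity
    · have hsum : ∑ v ∈ range k, w N 0 v * Function.update (fun _ => (0:ℝ)) j η v = Cw * η := by
        rw [← Finset.add_sum_erase _ _ hjm, Function.update_self, hw0]
        have : ∑ x ∈ (range k).erase j, w N 0 x * Function.update (fun _ => (0:ℝ)) j η x = 0 := by
          refine Finset.sum_eq_zero fun x hx => ?_
          rw [Function.update_of_ne (Finset.ne_of_mem_erase hx), mul_zero]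
        rw [this, add_zero]
      rw [hsum, abs_mul, abs_of_pos hCw]
      by_contra hlt
      push Not at hlt
      apply hη
      have h2 : |η| < l ^ K1 / Cw := by
        rw [lt_div_iff₀ hCw, mul_comm]; exact hlt
      exact ⟨(abs_lt.mp h2).1.le, (abs_lt.mp h2).2.le⟩

end Pool.Agent.N798.S2
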