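import Pool.Agent.N798.S.Stm

set_option autoImplicit false

/-!
Project S2 (helper798): prime arguments.  Statements of the steps.
-/

namespace Pool.Agent.N798.S2

open Finset MeasureTheory Filter Topology
open scoped ENNReal
open Pool.Agent.H376R2.MR (er)

/-- the phase `τ log n + ∑ g_i / n^{i+1}` -/
noncomputable def phE {J : ℕ} (τ : ℝ) (g : Fin J → ℝ) (n : ℕ) : ℂ :=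
  er 1 (τ * Real.log n + ∑ i, g i / (n : ℝ) ^ ((i : ℕ) + 1))

/-- (TII) bilinear sums -/
def S_TII : Prop := ∀ J A K : ℕ, ∃ (K' : ℕ) (C : ℝ), 0 < C ∧ ∀ (N N' U : ℕ) (τ : ℝ) (g : Fin J → ℝ), 2 ≤ N → N ≤ N' →
  N' ≤ 2 * N → (N : ℝ) ^ (1 / 10 : ℝ) ≤ U → (∀ i, |g i| / (N : ℝ) ^ ((i : ℕ) + 1) ≤ (N : ℝ) ^ A) →
  (∃ i, (Real.log N) ^ K' ≤ |g i| / (N : ℝ) ^ ((i : ℕ) + 1)) →
  ∀ (a b : ℕ → ℂ) (A₂ B₂ : ℝ), 0 ≤ A₂ → 0 ≤ B₂ → ∀ M L : ℕ, 1 ≤ M → 1 ≤ L → U < 2 * M → U < 2 * L → M * L ≤ N' →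
    ∑ m ∈ Ioc M (2 * M), ‖a m‖ ^ 2 ≤ A₂ * M → ∑ l ∈ Ioc L (2 * L), ‖b l‖ ^ 2 ≤ B₂ * L →
    ‖∑ m ∈ Ioc M (2 * M), ∑ l ∈ Ioc L (2 * L), a m * b l * (if N < m * l ∧ m * l ≤ N' then phE τ g (m * l) else 0)‖ ^ 2 ≤
      A₂ * B₂ * (C * N / (Real.log N) ^ K) ^ 2

/-- (TI) linear sums -/
def S_TI : Prop := ∀ J A K : ℕ, ∃ (K' : ℕ) (C : ℝ), 0 < C ∧ ∀ (N N' U : ℕ) (τ : ℝ) (g : Fin J → ℝ), 2 ≤ N → N ≤ N' →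
  N' ≤ 2 * N → 1 ≤ U → (U : ℝ) ≤ (N : ℝ) ^ (1 / 5 : ℝ) → |τ| ≤ (N : ℝ) ^ A →
  (∀ i, |g i| / (N : ℝ) ^ ((i : ℕ) + 1) ≤ (N : ℝ) ^ A) → (∃ i, (Real.log N) ^ K' ≤ |g i| / (N : ℝ) ^ ((i : ℕ) + 1)) →
  ∀ m ∈ Icc 1 (U * U), ∀ b, b ≤ N' / m → ‖∑ l ∈ Ioc (N / m) b, phE τ g (m * l)‖ ≤ C * (N / m) / (Real.log N) ^ K

/-- (LV) sums over primes with the weight `Λ`, some `g_i` large -/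
def S_LV : Prop := ∀ J A K : ℕ, ∃ (K' : ℕ) (C : ℝ), 0 < C ∧ ∀ (N N' : ℕ) (τ : ℝ) (g : Fin J → ℝ), 2 ≤ N → N ≤ N' →
  N' ≤ 2 * N → |τ| ≤ (N : ℝ) ^ A →
  (∀ i, |g i| / (N : ℝ) ^ ((i : ℕ) + 1) ≤ (N : ℝ) ^ A) → (∃ i, (Real.log N) ^ K' ≤ |g i| / (N : ℝ) ^ ((i : ℕ) + 1)) →
  ‖∑ n ∈ Ioc N N', ((ArithmeticFunction.vonMangoldt n : ℝ) : ℂ) * phE τ g n‖ ≤ C * N / (Real.log N) ^ K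

/-- (LP) from `Λ` to primes -/
def S_LP : Prop := ∃ C : ℝ, 0 < C ∧ ∀ (E : ℕ → ℂ) (N N' : ℕ) (B : ℝ), (∀ n, ‖E n‖ ≤ 1) → 2 ≤ N → N ≤ N' → N' ≤ 2 * N →
  (∀ M, N ≤ M → M ≤ N' → ‖∑ n ∈ Ioc N M, ((ArithmeticFunction.vonMangoldt n : ℝ) : ℂ) * E n‖ ≤ B) →
  ‖∑ n ∈ Ioc N N', (if n.Prime then (1:ℂ) else 0) * E n‖ ≤ C * (B / Real.log N + √N)

/-- (VR) a slowly varying phase under the sum -/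
def S_VR : Prop := ∀ (a : ℕ → ℂ) (ψ : ℕ → ℝ) (N N' : ℕ) (B V : ℝ), 1 ≤ N → N ≤ N' → N' ≤ 2 * N → 0 ≤ V →
  (∀ n, N ≤ n → n < N' → |ψ (n + 1) - ψ n| ≤ V / N) → (∀ M, N ≤ M → M ≤ N' → ‖∑ n ∈ Ioc N M, a n‖ ≤ B) →
  ‖∑ n ∈ Ioc N N', a n * er 1 (ψ n)‖ ≤ (1 + V) * B

/-- (PB) sums over primes -/
def S_PB : Prop := ∀ J A K : ℕ, ∃ (K' : ℕ) (C : ℝ), 0 < C ∧ ∀ (N N' : ℕ) (τ : ℝ) (g : Fin J → ℝ), 2 ≤ N → N ≤ N' →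
  N' ≤ 2 * N → |τ| ≤ (N : ℝ) ^ A → (∀ i, |g i| / (N : ℝ) ^ ((i : ℕ) + 1) ≤ (N : ℝ) ^ A) →
  ((Real.log N) ^ K' ≤ |τ| ∨ ∃ i, (Real.log N) ^ K' ≤ |g i| / (N : ℝ) ^ ((i : ℕ) + 1)) →
  ‖∑ n ∈ Ioc N N', (if n.Prime then (1:ℂ) else 0) * phE τ g n‖ ≤ C * N / (Real.log N) ^ K

/-- as `Pool.Agent.N798.S.Ph`, with a weight `g` -/
structure Pw (g : ℕ → ℂ) (L : ℕ → ℕ → ℝ) (k : ℕ) (d : ℕ → ℝ) : Prop where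
  sums : ∀ A : ℕ, ∃ (J : ℕ) (w : ℕ → ℕ → ℕ → ℝ) (B : ℝ) (N0 : ℕ), 2 ≤ N0 ∧
    (∀ N i v, N0 ≤ N → v < k → |w N i v| ≤ B) ∧ (∀ N v, w N 0 v = d v) ∧
    ∀ K : ℕ, ∃ (K' : ℕ) (C : ℝ), 0 < C ∧ ∀ (N N' : ℕ) (θ : ℕ → ℝ), N0 ≤ N → N ≤ N' → N' ≤ 2 * N →
      (∀ v < k, |θ v| ≤ (N : ℝ) ^ A) → (∃ i ≤ J, (Real.log N) ^ K' ≤ |∑ v ∈ range k, w N i v * θ v|) →
      ‖∑ n ∈ Ioc N N', g n * er 1 (∑ v ∈ range k, θ v * L v n)‖ ≤ C * N / (Real.log N) ^ K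

/-- (PHP) the logarithms of polynomials at primes -/
def S_PHP : Prop := ∀ (k : ℕ) (P : ℕ → Polynomial ℝ), (∀ v, 0 < (P v).leadingCoeff) → (∀ v, 0 < (P v).natDegree) →
  Pw (fun n => if n.Prime then 1 else 0) (fun v n => Real.log ((P v).eval (n : ℝ))) k (fun v => ((P v).natDegree : ℝ))

/-- (PN) the prime number theorem with an error term, as a sum -/
def S_PN : Prop := ∀ K : ℕ, Tendsto (fun N : ℕ => (Real.log N) ^ K / N *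
  |∑ n ∈ Icc 1 N, ((if n.Prime then (1:ℝ) else 0) - 1 / Real.log n)|) atTop (𝓝 0)

end Pool.Agent.N798.S2
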