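import Pool.Agent.N798.S.Er
import Pool.Agent.N798.S2.Stm

set_option autoImplicit false
set_option maxHeartbeats 1000000

/-! Project S2: the Plancherel step, with a weight at the root. -/

namespace Pool.Agent.N798.S2

open Finset MeasureTheory Filter Topology
open scoped ENNReal
open Pool.Agent.H376R2.MR (er)
open Pool.Agent.N798.T
open Pool.Agent.N798.S (nv SW CS nv_meas nv_congr SW_meas SW_le SW_upd SW_succ window2 fin_bd2 CS_snoc CS_meas ap wtp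
  xs xs_nonneg xs_le xs_cast xs_congr xs_succ logx2 ys CS_eq ms ms_congr ms_succ sz_of ys_slow slow log_tend)

/-- the product of `g n` and of the weights and twists over the nodes -/
noncomputable def SV (g : ℕ → ℂ) (a : ℕ → ℕ → ℂ) (b : ℕ → ℤ) (L : ℕ → ℕ → ℝ) (s : ℕ → ℝ) (k j : ℕ) (ω : Fin j → ℝ)
    (n : ℕ) (θ : ℕ → ℝ) : ℂ := g n * SW a b L s k j ω n θ

/-- small mean squares unless all functionals are small -/
def VReg (g : ℕ → ℂ) (a : ℕ → ℕ → ℂ) (b : ℕ → ℤ) (L : ℕ → ℕ → ℝ) (s : ℕ → ℝ) (k A J : ℕ) (w : ℕ → ℕ → ℕ → ℝ)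
    (N0 j : ℕ) : Prop :=
  ∀ K : ℕ, ∃ (K' : ℕ) (D : ℝ), 0 ≤ D ∧ ∀ (N N' : ℕ) (θ : ℕ → ℝ), N0 ≤ N → N ≤ N' → N' ≤ 2 * N →
    (∀ v < k, |θ v| ≤ (N : ℝ) ^ A) → (∃ i ≤ J, (Real.log N) ^ K' ≤ |∑ v ∈ range k, w N i v * θ v|) →
      ∫⁻ ω, ‖∑ n ∈ Ioc N N', SV g a b L s k j ω n θ‖ₑ ^ 2 ∂(mu j) ≤ ENNReal.ofReal (D * N ^ 2 / (Real.log N) ^ K)

variable {g : ℕ → ℂ} {a : ℕ → ℕ → ℂ} {b : ℕ → ℤ} {L : ℕ → ℕ → ℝ} {s : ℕ → ℝ} {k j : ℕ}

lemma SV_meas (n : ℕ) (θ : ℕ → ℝ) : Measurable fun ω => SV g a b L s k j ω n θ := by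
  unfold SV
  exact (SW_meas n θ).const_mul _

lemma SV_le (hg : ∀ n, ‖g n‖ ≤ 1) (hw : ∀ v n, ‖a v n‖ ≤ 1) (ω : Fin j → ℝ) (n : ℕ) (θ : ℕ → ℝ) :
    ‖SV g a b L s k j ω n θ‖ ≤ 1 := by
  unfold SV
  rw [norm_mul]
  exact mul_le_one₀ (hg n) (norm_nonneg _) (SW_le hw ω n θ)

lemma SV_upd (hj : j < k) (ω : Fin j → ℝ) (n : ℕ) (θ : ℕ → ℝ) (η : ℝ) :
    SV g a b L s k j ω n (Function.update θ j η) =
      SV g a b L s k j ω n (Function.update θ j 0) * er η (L j n) := by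
  unfold SV
  rw [SW_upd hj ω n θ η]
  ring

lemma SV_succ (hj : j < k) (ω : Fin j → ℝ) (u : ℝ) (hu : u ∈ Set.Icc (0:ℝ) 1) (n : ℕ) (θ : ℕ → ℝ) :
    SV g a b L s k (j + 1) (Fin.snoc ω u : Fin (j + 1) → ℝ) n θ = SV g a b L s k j ω n (Function.update θ j 0) *
      (a j (vl (b j) (Real.exp (u + (s j + L j n)))) *
        er (θ j) (Real.log (vl (b j) (Real.exp (u + (s j + L j n)))))) := by
  unfold SV
  rw [SW_succ hj ω u hu n θ]
  ring

lemma core3 (hpl : S_PL) (hg : ∀ n, ‖g n‖ ≤ 1) (hw : ∀ v n, ‖a v n‖ ≤ 1) (hj : j < k) (θ : ℕ → ℝ) (N N' : ℕ) (hN' : N' ≤ 2 * N)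
    (h : ℝ → ℂ) (hh : Measurable h) (Y R : ℝ) (hR : 0 ≤ R) (hb : ∀ y ∈ Set.Icc Y (Y + R), ‖h y‖ ≤ 2)
    (hwin : ∀ n ∈ Ioc N N', ∀ u ∈ Set.Icc (0:ℝ) 1, u + (s j + L j n) ∈ Set.Icc Y (Y + R))
    (V : ℝ) (hV0 : 0 ≤ V) (hV : ∀ η : ℝ, 0 < |η| → ‖∫ y in Y..(Y + R), h y * er (-η) y‖ ≤ V / |η|)
    (T κ S p q : ℝ) (hT : 1 ≤ T) (hκ : 0 ≤ κ) (hS : 0 ≤ S) (hpq : p ≤ q)
    (hI : ∀ η ∈ Set.Icc p q, |η| ≤ T → ‖∫ y in Y..(Y + R), h y * er (-η) y‖ ≤ κ)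
    (hO : ∀ η : ℝ, |η| ≤ T → η ∉ Set.Icc p q →
      ∫⁻ ω, ‖∑ n ∈ Ioc N N', SV g a b L s k j ω n (Function.update θ j η)‖ₑ ^ 2 ∂(mu j) ≤ ENNReal.ofReal S) :
    ∫⁻ ω, (∫⁻ u in Set.Icc (0:ℝ) 1,
      ‖∑ n ∈ Ioc N N', SV g a b L s k j ω n (Function.update θ j 0) * h (u + (s j + L j n))‖ₑ ^ 2)
      ∂(mu j) ≤ ENNReal.ofReal (((q - p) * κ ^ 2 + 2 * V ^ 2 / T) * (N : ℝ) ^ 2 + 4 * R * S) := by
  set H : ℝ → ℂ := (Set.Icc Y (Y + R)).indicator h with hH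
  have hYR : Y ≤ Y + R := by linarith
  have hint : ∀ η : ℝ, ∫ y, H y * er (-η) y = ∫ y in Y..(Y + R), h y * er (-η) y := by
    intro η
    rw [intervalIntegral.integral_of_le hYR, ← integral_Icc_eq_integral_Ioc, ← integral_indicator measurableSet_Icc]
    congr 1
    funext y
    simp only [hH, Set.indicator]
    split_ifs
    · rfl
    · rw [zero_mul]
  have h1 := hpl (Fin j → ℝ) (mu j) (Ioc N N') (fun ω n => SV g a b L s k j ω n (Function.update θ j 0))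
    (fun _ n => s j + L j n) (fun n => SV_meas n _) (fun n => measurable_const) (fun ω n => SV_le hg hw ω n _)
    H (hh.indicator measurableSet_Icc) (by
      intro y
      simp only [hH, Set.indicator]
      split_ifs with hy
      · exact hb y hy
      · rw [norm_zero]; norm_num) Y R hR (by
      intro y hy
      simp only [hH, Set.indicator, if_neg hy]) V hV0 (by
      intro η hη
      rw [hint]
      exact hV η hη) T κ S p q hT hκ hS hpq (by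
      intro η hη hηT
      rw [hint]
      exact hI η hη hηT) (by
      intro η hηT hη
      refine le_trans (le_of_eq ?_) (hO η hηT hη)
      refine lintegral_congr fun ω => ?_
      have h3 : ∑ n ∈ Ioc N N', SV g a b L s k j ω n (Function.update θ j 0) * er η (s j + L j n) =
          er η (s j) * ∑ n ∈ Ioc N N', SV g a b L s k j ω n (Function.update θ j η) := by
        rw [Finset.mul_sum]
        refine Finset.sum_congr rfl fun n _ => ?_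
        rw [SV_upd hj ω n θ η, er_shift]
        ring
      rw [h3, enorm_mul]
      have h4 : ‖er η (s j)‖ₑ = 1 := by
        rw [← ofReal_norm, er_norm, ENNReal.ofReal_one]
      rw [h4, one_mul])
  refine le_trans (lintegral_mono fun ω => ?_) (h1.trans ?_)
  · refine le_trans (le_of_eq ?_) (setLIntegral_le_lintegral (Set.Icc (0:ℝ) 1) _)
    refine setLIntegral_congr_fun measurableSet_Icc fun u hu => ?_
    congr 2
    refine Finset.sum_congr rfl fun n hn => ?_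
    rw [hH, Set.indicator_of_mem (hwin n hn u hu)]
  · apply ENNReal.ofReal_le_ofReal
    have e1 : (mu j).real Set.univ = 1 := by simp
    rw [e1, mul_one]
    have e3 : ((Ioc N N').card : ℝ) ≤ N := by
      rw [Nat.card_Ioc]
      exact_mod_cast (by omega : N' - N ≤ N)
    have e4 : ((Ioc N N').card : ℝ) ^ 2 ≤ (N : ℝ) ^ 2 := pow_le_pow_left₀ (Nat.cast_nonneg _) e3 2
    have e5 : 0 ≤ (q - p) * κ ^ 2 + 2 * V ^ 2 / T := by
      have : 0 ≤ q - p := by linarith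
      positivity
    have := mul_le_mul_of_nonneg_left e4 e5
    linarith

lemma vreg_zero (A J : ℕ) (w : ℕ → ℕ → ℕ → ℝ) (N0 : ℕ) (hN0 : 2 ≤ N0)
    (hs : ∀ K : ℕ, ∃ (K' : ℕ) (C : ℝ), 0 < C ∧ ∀ (N N' : ℕ) (θ : ℕ → ℝ), N0 ≤ N → N ≤ N' → N' ≤ 2 * N →
      (∀ v < k, |θ v| ≤ (N : ℝ) ^ A) → (∃ i ≤ J, (Real.log N) ^ K' ≤ |∑ v ∈ range k, w N i v * θ v|) →
      ‖∑ n ∈ Ioc N N', g n * er 1 (∑ v ∈ range k, θ v * L v n)‖ ≤ C * N / (Real.log N) ^ K) :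
    VReg g a b L s k A J w N0 0 := by
  intro K
  obtain ⟨K', C, hC, h⟩ := hs K
  have hl2 : 0 < Real.log 2 := Real.log_pos (by norm_num)
  refine ⟨K', C ^ 2 / (Real.log 2) ^ K, by positivity, fun N N' θ hN hNN hN' hθ hi => ?_⟩
  have h1 := h N N' θ hN hNN hN' hθ hi
  have hNr : (2:ℝ) ≤ N := by exact_mod_cast (hN0.trans hN)
  have hl : Real.log 2 ≤ Real.log N := Real.log_le_log (by norm_num) hNr
  have hlK : (Real.log 2) ^ K ≤ (Real.log N) ^ K := pow_le_pow_left₀ hl2.le hl K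
  have hp2 : 0 < (Real.log 2) ^ K := pow_pos hl2 K
  have hpN : 0 < (Real.log N) ^ K := hp2.trans_le hlK
  have h2 : ∀ ω : Fin 0 → ℝ, ‖∑ n ∈ Ioc N N', SV g a b L s k 0 ω n θ‖ₑ ^ 2 ≤
      ENNReal.ofReal (C ^ 2 / (Real.log 2) ^ K * N ^ 2 / (Real.log N) ^ K) := by
    intro ω
    have e1 : ∑ n ∈ Ioc N N', SV g a b L s k 0 ω n θ = ∑ n ∈ Ioc N N', g n * er 1 (∑ v ∈ range k, θ v * L v n) := by
      refine Finset.sum_congr rfl fun n _ => ?_
      unfold SV SW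
      rw [Finset.range_zero, Finset.prod_empty, one_mul, ← Finset.range_eq_Ico]
    rw [e1, ← ofReal_norm, ← ENNReal.ofReal_pow (norm_nonneg _)]
    apply ENNReal.ofReal_le_ofReal
    refine (pow_le_pow_left₀ (norm_nonneg _) h1 2).trans ?_
    rw [div_pow, mul_pow, pow_two (Real.log (N:ℝ) ^ K), ← div_div]
    refine div_le_div_of_nonneg_right ?_ hpN.le
    rw [div_mul_eq_mul_div]
    exact div_le_div_of_nonneg_left (by positivity) hp2 hlK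
  refine (lintegral_mono h2).trans ?_
  rw [lintegral_const, measure_univ, mul_one]

end Pool.Agent.N798.S2
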