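import Pool.Agent.N798.S2.CE

set_option autoImplicit false
set_option maxHeartbeats 1000000

/-! Project S2: the asymptotic formulas for almost every point of the cube, with a weight at the root. -/

namespace Pool.Agent.N798.S2

open Finset MeasureTheory Filter Topology
open scoped ENNReal
open Pool.Agent.H376R2.MR (er)
open Pool.Agent.N798.T
open Pool.Agent.N798.S (nv SW CS nv_meas nv_congr SW_meas SW_le SW_upd SW_succ window2 fin_bd2 CS_snoc CS_meas ap wtp
  xs xs_nonneg xs_le xs_cast xs_congr xs_succ logx2 ys CS_eq ms ms_congr ms_succ sz_of ys_slow slow log_tend)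

variable {L : ℕ → ℕ → ℝ} {k j : ℕ}

theorem ae3 (r m0 : ℕ → ℝ) (hr0 : ∀ n, 0 ≤ r n) (hr1 : ∀ n, r n ≤ 1) (E : ℕ)
    (hbase : Tendsto (fun N : ℕ => (∑ n ∈ Icc 1 N, r n) * (Real.log N) ^ E / N) atTop (𝓝 1))
    (hbase' : ∀ K : ℕ, Tendsto (fun N : ℕ => (Real.log (N:ℝ)) ^ K / N * |∑ n ∈ Icc 1 N, (r n - m0 n)|) atTop (𝓝 0))
    (d : ℕ → ℝ) (hPw : Pw (fun n => ((r n : ℝ) : ℂ)) L k d) (hd : ∀ v, 0 < d v)
    (hsz' : ∀ v, ∃ (B c : ℝ) (n0 : ℕ), 1 ≤ n0 ∧ ∀ n : ℕ, n0 ≤ n → |L v n - (d v * Real.log n + c)| ≤ B / n)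
    (b : ℕ → ℤ) (s : ℕ → ℝ) (j : ℕ) (hj : j ≤ k) :
    ∀ᵐ ω ∂(mu j), Tendsto (fun N : ℕ => (∑ n ∈ Icc 1 N, r n * xs b L (al s j ω) j n) *
      (Real.log N) ^ (E + j) / N) atTop (𝓝 (∏ v ∈ range j, 1 / d v)) ∧
      ∀ K : ℕ, Tendsto (fun N : ℕ => (Real.log (N:ℝ)) ^ K / N *
      |∑ n ∈ Icc 1 N, (r n * xs b L (al s j ω) j n - m0 n * ms L (al s j ω) j n)|) atTop (𝓝 0) := by
  have hsz : ∀ v, ∃ (B : ℝ) (n0 : ℕ), 1 ≤ n0 ∧ ∀ n : ℕ, n0 ≤ n → |L v n - d v * Real.log n| ≤ B :=
    fun v => sz_of d v (hsz' v)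
  have hg : ∀ n, ‖((r n : ℝ) : ℂ)‖ ≤ 1 := fun n => by
    rw [Complex.norm_real, Real.norm_of_nonneg (hr0 n)]; exact hr1 n
  induction j with
  | zero =>
    refine Eventually.of_forall fun ω => ⟨?_, fun K => ?_⟩
    · simp only [xs, Finset.range_zero, Finset.prod_empty, mul_one, add_zero]
      exact hbase
    · simp only [xs, ms, Finset.range_zero, Finset.prod_empty, mul_one]
      exact hbase' K
  | succ j ih =>
    obtain ⟨B, n1, hn1, hB⟩ := logx2 (j := j) (s := s) d (hsz j)
    have hCw := hd j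
    have hl : Tendsto (fun N : ℕ => Real.log (N:ℝ)) atTop atTop := log_tend
    obtain ⟨n2, hn2⟩ := eventually_atTop.mp (log_tend.eventually_ge_atTop ((|B| + 1) / d j))
    have hlog1 : ∀ ω : Fin (j + 1) → ℝ, ∀ n : ℕ, max n1 n2 ≤ n →
        1 ≤ Real.log (al s (j + 1) ω j * Real.exp (L j n)) := by
      intro ω n hn
      have h1 := hB ω n ((le_max_left _ _).trans hn)
      have h2 := hn2 n ((le_max_right _ _).trans hn)
      rw [div_le_iff₀ hCw] at h2
      have h3 := (abs_le.mp h1).1
      have h4 := le_abs_self B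
      linarith
    set A : ℕ := ∑ v ∈ range k, ⌈2 * d v + 1⌉₊ with hA
    have hA' : ∀ v < k, 2 * d v + 1 ≤ (A:ℝ) := by
      intro v hv
      have h1 : ⌈2 * d v + 1⌉₊ ≤ A :=
        Finset.single_le_sum (f := fun v => ⌈2 * d v + 1⌉₊) (fun i _ => Nat.zero_le _) (Finset.mem_range.mpr hv)
      exact (Nat.le_ceil _).trans (by exact_mod_cast h1)
    obtain ⟨J, w, B', N0, hN0, hwB, hw0, hs⟩ := hPw.sums A
    have hreg := vreg_all Pool.Agent.N216.T.FT.ft Pool.Agent.N539.T.fd Pool.Agent.N499.T.pl
      (fun n => ((r n : ℝ) : ℂ)) hg ap (fun _ => 1) b L s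
      k A J w N0 d B' hN0 wtp hd hsz hwB hw0 hA' hs j (by omega)
    have hbc := Pool.Agent.N364.T.bci (Fin (j + 1) → ℝ) (mu (j + 1))
      (fun ω n => ((r n : ℝ) : ℂ) * CS ap (fun _ => 1) b L s j ω n)
      (max n1 n2) (fun n => (CS_meas n).const_mul _) (by
        intro ω n hn
        rw [norm_mul]
        have h0 : ‖CS ap (fun _ => 1) b L s j ω n‖ ≤ 2 := by
          rw [CS_eq, Complex.norm_real, Real.norm_eq_abs]
          have h1 := hlog1 ω n hn
          have h2 : 0 ≤ ys L s j ω n ∧ ys L s j ω n ≤ 1 := by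
            unfold ys
            have h3 : 1 ≤ (Real.log (al s (j + 1) ω j * Real.exp (L j n))) ^ 1 := one_le_pow₀ h1
            exact ⟨by positivity, by rw [div_le_one (by linarith)]; exact h3⟩
          have h3 := xs_nonneg b L (al s (j + 1) ω) (j + 1) n
          have h4 := xs_le b L (al s (j + 1) ω) (j + 1) n
          have h5 := xs_nonneg b L (al s (j + 1) ω) j n
          have h6 := xs_le b L (al s (j + 1) ω) j n
          have h7 : xs b L (al s (j + 1) ω) j n * ys L s j ω n ≤ 1 := by nlinarith [h2.1, h2.2]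
          have h8 : 0 ≤ xs b L (al s (j + 1) ω) j n * ys L s j ω n := mul_nonneg h5 h2.1
          rw [abs_le]
          constructor <;> linarith
        calc ‖((r n : ℝ) : ℂ)‖ * ‖CS ap (fun _ => 1) b L s j ω n‖ ≤ 1 * 2 :=
              mul_le_mul (hg n) h0 (norm_nonneg _) zero_le_one
          _ = 2 := one_mul 2)
      (ce3 Pool.Agent.N539.T.f0 Pool.Agent.N539.T.fd Pool.Agent.N499.T.pl (fun n => ((r n : ℝ) : ℂ)) hg
        ap (fun _ => 1) b L s k A J w N0 d wtp hd hsz hw0 hA' j (by omega) hreg)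
    filter_upwards [hbc, ae_succ _ (ih (by omega))] with ω hω1 hω2'
    obtain ⟨hω2, hω2e⟩ := hω2'
    have ecs : ∀ N : ℕ, ∑ n ∈ Icc 1 N, ((r n : ℝ) : ℂ) * CS ap (fun _ => 1) b L s j ω n = ((∑ n ∈ Icc 1 N,
        (r n * xs b L (al s (j + 1) ω) (j + 1) n - r n * xs b L (al s (j + 1) ω) j n * ys L s j ω n) : ℝ) : ℂ) := by
      intro N
      rw [Complex.ofReal_sum]
      refine Finset.sum_congr rfl fun n _ => ?_
      rw [CS_eq]
      push_cast
      ring
    refine ⟨?_, fun K => ?_⟩
    · set Q : ℝ := ∏ v ∈ range j, 1 / d v with hQ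
      have hQ0 : 0 < Q := Finset.prod_pos fun v _ => by
        have := hd v
        positivity
      have h1 : Tendsto (fun N : ℕ => (∑ n ∈ Icc 1 N, r n * xs b L (al s (j + 1) ω) j n) * (Real.log N) ^ (E + j) / N)
          atTop (𝓝 Q) := by
        refine hω2.congr fun N => ?_
        congr 2
        refine Finset.sum_congr rfl fun n _ => ?_
        rw [xs_congr _ _ _ _ _ _ fun v hv => al_cast (s := s) ω v hv]
      have h2 : Tendsto (fun n : ℕ => ys L s j ω n * (d j * Real.log n) ^ 1) atTop (𝓝 1) := by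
        have h3 : Tendsto (fun n : ℕ => (d j * Real.log n) /
            Real.log (al s (j + 1) ω j * Real.exp (L j n))) atTop (𝓝 1) := by
          have h4 : Tendsto (fun n : ℕ => Real.log (al s (j + 1) ω j * Real.exp (L j n)) /
              (d j * Real.log n)) atTop (𝓝 1) := by
            have h5 : Tendsto (fun n : ℕ => (Real.log (al s (j + 1) ω j * Real.exp (L j n)) -
                d j * Real.log n) / (d j * Real.log n)) atTop (𝓝 0) := by
              refine squeeze_zero_norm' (a := fun n : ℕ => |B| / (d j * Real.log n)) ?_ ?_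
              · filter_upwards [eventually_ge_atTop n1, eventually_ge_atTop 2] with n hn hn2'
                have hln : 0 < Real.log (n:ℝ) := Real.log_pos (by exact_mod_cast (by omega : 1 < n))
                rw [norm_div, Real.norm_eq_abs, Real.norm_of_nonneg (by positivity : 0 ≤ d j * Real.log n)]
                exact div_le_div_of_nonneg_right ((hB ω n hn).trans (le_abs_self B)) (by positivity)
              · exact Tendsto.div_atTop tendsto_const_nhds (hl.const_mul_atTop hCw)
            have h6 := h5.add_const 1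
            rw [zero_add] at h6
            refine h6.congr' ?_
            filter_upwards [eventually_ge_atTop 2] with n hn2'
            have hln : 0 < Real.log (n:ℝ) := Real.log_pos (by exact_mod_cast (by omega : 1 < n))
            field_simp
            ring
          have h7 := h4.inv₀ one_ne_zero
          rw [inv_one] at h7
          exact h7.congr fun n => by rw [inv_div]
        refine h3.congr fun n => ?_
        unfold ys
        rw [pow_one, pow_one, one_div, inv_mul_eq_div]
      have h9 := Pool.Agent.N901.T.su (fun n => r n * xs b L (al s (j + 1) ω) j n) (fun n => ys L s j ω n)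
        (E + j) 1 (d j) Q (fun n => mul_nonneg (hr0 n) (xs_nonneg _ _ _ _ _))
        (fun n => mul_le_one₀ (hr1 n) (xs_nonneg _ _ _ _ _) (xs_le _ _ _ _ _))
        hCw hQ0 h1 h2
      have h10 := hω1 (E + j + 1)
      have h11 : Tendsto (fun N : ℕ => (∑ n ∈ Icc 1 N, (r n * xs b L (al s (j + 1) ω) (j + 1) n -
          r n * xs b L (al s (j + 1) ω) j n * ys L s j ω n)) * (Real.log N) ^ (E + j + 1) / N) atTop (𝓝 0) := by
        refine squeeze_zero_norm' ?_ h10
        filter_upwards [eventually_ge_atTop 1] with N hN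
        have hl0 : 0 ≤ Real.log (N:ℝ) := Real.log_nonneg (by exact_mod_cast hN)
        rw [ecs, Complex.norm_real, norm_div, norm_mul, Real.norm_of_nonneg (pow_nonneg hl0 _),
          Real.norm_of_nonneg (Nat.cast_nonneg N)]
        apply le_of_eq
        ring
      have h12 := h9.add h11
      rw [add_zero] at h12
      have e3 : ∏ v ∈ range (j + 1), 1 / d v = Q / (d j) ^ 1 := by
        rw [Finset.prod_range_succ, ← hQ]
        ring
      rw [e3]
      refine h12.congr fun N => ?_
      rw [Finset.sum_sub_distrib]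
      ring
    · obtain ⟨C, n3, hC1, hC2⟩ := ys_slow (s := s) d hCw (hsz' j) ω
      have hz : ∀ K : ℕ, Tendsto (fun N : ℕ => (Real.log (N:ℝ)) ^ K / N *
          |∑ n ∈ Icc 1 N, (r n * xs b L (al s (j + 1) ω) j n - m0 n * ms L (al s (j + 1) ω) j n)|) atTop (𝓝 0) := by
        intro K
        refine (hω2e K).congr fun N => ?_
        congr 2
        refine Finset.sum_congr rfl fun n _ => ?_
        rw [xs_congr _ _ _ _ _ _ fun v hv => al_cast (s := s) ω v hv, ms_congr _ _ _ _ _ fun v hv => al_cast (s := s) ω v hv]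
      have h1 := slow _ (fun n => ys L s j ω n) C n3 hC1 hC2 hz K
      have h2 := (hω1 K).add h1
      rw [add_zero] at h2
      refine squeeze_zero' ?_ ?_ h2
      · filter_upwards [eventually_ge_atTop 1] with N hN
        have : 0 ≤ Real.log (N:ℝ) := Real.log_nonneg (by exact_mod_cast hN)
        positivity
      · filter_upwards [eventually_ge_atTop 1] with N hN
        have hl0 : 0 ≤ Real.log (N:ℝ) := Real.log_nonneg (by exact_mod_cast hN)
        rw [← mul_add]
        refine mul_le_mul_of_nonneg_left ?_ (by positivity)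
        rw [ecs, Complex.norm_real, Real.norm_eq_abs]
        refine le_trans (le_of_eq ?_) (abs_add_le _ _)
        congr 1
        rw [← Finset.sum_add_distrib]
        refine Finset.sum_congr rfl fun n _ => ?_
        rw [ms_succ]
        unfold ys
        rw [pow_one]
        ring

end Pool.Agent.N798.S2
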