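import Pool.Agent.N798.S.Fi
import Pool.Agent.N798.S2.Er

set_option autoImplicit false
set_option maxHeartbeats 1000000

/-! Project S2: the final statements. -/

namespace Pool.Agent.N798.S2

open Finset MeasureTheory Filter Topology Polynomial
open scoped ENNReal
open Pool.Agent.H376R2.MR (er)
open Pool.Agent.N798.T
open Pool.Agent.N798.S (nv xs xs_nonneg xs_le ms sz_of log_tend logK_div fin_diff const_small pl pl_meas)

/-- the indicator of the primes -/
noncomputable def pr (n : ℕ) : ℝ := if n.Prime then 1 else 0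

lemma pr_nonneg (n : ℕ) : 0 ≤ pr n := by unfold pr; split_ifs <;> norm_num

lemma pr_le (n : ℕ) : pr n ≤ 1 := by unfold pr; split_ifs <;> norm_num

/-- the number of primes `p ≤ N` for which all the `⌊α_v P_v(p)⌋ + b_v` are primes -/
noncomputable def cnt {k : ℕ} (P : Fin k → ℝ[X]) (b : Fin k → ℤ) (α : Fin k → ℝ) (N : ℕ) : ℕ :=
  #((Icc 1 N).filter fun n : ℕ => n.Prime ∧ ∀ v, (⌊α v * (P v).eval (n : ℝ)⌋ + b v).toNat.Prime)

/-- the expected number -/
noncomputable def mt {k : ℕ} (P : Fin k → ℝ[X]) (α : Fin k → ℝ) (N : ℕ) : ℝ :=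
  ∑ n ∈ Icc 1 N, 1 / Real.log n * ∏ v, 1 / Real.log (α v * (P v).eval (n : ℝ))

/-- the good multipliers -/
def Good {k : ℕ} (P : Fin k → ℝ[X]) (b : Fin k → ℤ) (α : Fin k → ℝ) : Prop :=
  Tendsto (fun N : ℕ => (cnt P b α N : ℝ) * (Real.log N) ^ (1 + k) / N) atTop (𝓝 (∏ v, 1 / ((P v).natDegree : ℝ))) ∧
  ∀ K : ℕ, Tendsto (fun N : ℕ => (Real.log N) ^ K / N * |(cnt P b α N : ℝ) - mt P α N|) atTop (𝓝 0)

theorem cube_good (hphp : S_PHP) (hpn : S_PN) {k : ℕ} (P : Fin k → ℝ[X]) (hP : ∀ v, 0 < (P v).leadingCoeff)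
    (hD : ∀ v, 0 < (P v).natDegree)
    (b : Fin k → ℤ) (s : ℕ → ℝ) : ∀ᵐ ω ∂(mu k), Good P b (fun j : Fin k => al s k ω j) := by
  set Pe : ℕ → ℝ[X] := fun v => if h : v < k then P ⟨v, h⟩ else X with hPe
  set be : ℕ → ℤ := fun v => if h : v < k then b ⟨v, h⟩ else 0 with hbe
  have hPe1 : ∀ v : Fin k, Pe v = P v := fun v => by simp only [hPe, dif_pos v.2]
  have hbe1 : ∀ v : Fin k, be v = b v := fun v => by simp only [hbe, dif_pos v.2]
  have hlc : ∀ v, 0 < (Pe v).leadingCoeff := by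
    intro v
    simp only [hPe]
    split_ifs
    · exact hP _
    · rw [leadingCoeff_X]; exact one_pos
  have hdg : ∀ v, 0 < (Pe v).natDegree := by
    intro v
    simp only [hPe]
    split_ifs
    · exact hD _
    · rw [natDegree_X]; exact one_pos
  set L : ℕ → ℕ → ℝ := fun v n => Real.log ((Pe v).eval (n : ℝ)) with hL
  set d : ℕ → ℝ := fun v => ((Pe v).natDegree : ℝ) with hd'
  have hd : ∀ v, 0 < d v := fun v => by simp only [hd']; exact_mod_cast hdg v
  have hPw : Pw (fun n => ((pr n : ℝ) : ℂ)) L k d := by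
    have h1 := hphp k Pe hlc hdg
    have e1 : (fun n : ℕ => if n.Prime then (1:ℂ) else 0) = fun n => ((pr n : ℝ) : ℂ) := by
      funext n
      unfold pr
      split_ifs <;> simp
    rw [e1] at h1
    exact h1
  have hpos : ∀ v, ∃ n0 : ℕ, 1 ≤ n0 ∧ ∀ n : ℕ, n0 ≤ n → 0 < (Pe v).eval (n : ℝ) := by
    intro v
    obtain ⟨c, C, n0, hn0, _, h⟩ := Pool.Agent.N803.S.lp (Pe v) (hlc v) 0
    exact ⟨n0, hn0, fun n hn => (h n hn).1⟩
  have hsz' : ∀ v, ∃ (B c : ℝ) (n0 : ℕ), 1 ≤ n0 ∧ ∀ n : ℕ, n0 ≤ n → |L v n - (d v * Real.log n + c)| ≤ B / n := by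
    intro v
    obtain ⟨c, C, n0, hn0, _, h⟩ := Pool.Agent.N803.S.lp (Pe v) (hlc v) 0
    refine ⟨C, Real.log (Pe v).leadingCoeff, n0, hn0, fun n hn => ?_⟩
    have h1 := (h n hn).2
    rw [Finset.univ_eq_empty, Finset.sum_empty, add_zero, zero_add, pow_one] at h1
    exact h1
  choose m0 hm1 hm2 using hpos
  set n0 := (range k).sup m0 with hn0
  have hbase : Tendsto (fun N : ℕ => (∑ n ∈ Icc 1 N, pr n) * (Real.log N) ^ 1 / N) atTop (𝓝 1) := by
    have h1 := base_asym {0} (fun _ => 0) (fun _ => 0) (fun _ => 1) (fun _ => 1)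
    have e0 : ∀ n, xr {0} (fun _ => 0) (fun _ => 0) (fun _ => 1) (fun _ => 1) 0 n = pr n := by
      intro n
      unfold xr pr
      rw [zero_add, Finset.prod_range_one, nd_zero, if_pos (Finset.mem_singleton_self 0)]
    have e1 : ew {0} 0 = 1 := by unfold ew; rw [if_pos (Finset.mem_singleton_self 0)]
    simp only [Finset.prod_range_one, Finset.sum_range_one, e0, e1, ex_zero, one_pow, div_one] at h1
    exact h1
  filter_upwards [ae3 pr (fun n => 1 / Real.log n) pr_nonneg pr_le 1 hbase hpn d hPw hd hsz' be s k le_rfl] with ω h12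
  obtain ⟨h1, h2⟩ := h12
  set α : Fin k → ℝ := fun j => al s k ω j with hα
  have hE : ∀ (v : Fin k) (n : ℕ), n0 ≤ n → Real.exp (L v n) = (P v).eval (n : ℝ) := by
    intro v n hn
    have h3 : m0 v ≤ n := (Finset.le_sup (f := m0) (Finset.mem_range.mpr v.2)).trans hn
    have h4 := hm2 v n h3
    simp only [hL]
    rw [Real.exp_log h4, hPe1]
  have hxs : ∀ n, n0 ≤ n → pr n * xs be L (al s k ω) k n =
      if (n.Prime ∧ ∀ v : Fin k, (⌊α v * (P v).eval (n : ℝ)⌋ + b v).toNat.Prime) then 1 else 0 := by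
    intro n hn
    have h3 : ∀ v : Fin k, nv be L (al s k ω) n v = (⌊α v * (P v).eval (n : ℝ)⌋ + b v).toNat := by
      intro v
      unfold nv vl
      rw [hE v n hn, hbe1]
    unfold xs pr
    rw [Finset.prod_range]
    by_cases hp : n.Prime
    · rw [if_pos hp, one_mul]
      split_ifs with h
      · refine Finset.prod_eq_one fun v _ => ?_
        rw [h3, if_pos (h.2 v)]
      · have h' : ¬ ∀ v : Fin k, (⌊α v * (P v).eval (n : ℝ)⌋ + b v).toNat.Prime := fun hh => h ⟨hp, hh⟩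
        push Not at h'
        obtain ⟨v, hv⟩ := h'
        refine Finset.prod_eq_zero (Finset.mem_univ v) ?_
        rw [h3, if_neg hv]
    · rw [if_neg hp, zero_mul, if_neg fun hh => hp hh.1]
  have hms : ∀ n, n0 ≤ n → 1 / Real.log n * ms L (al s k ω) k n =
      1 / Real.log n * ∏ v, 1 / Real.log (α v * (P v).eval (n : ℝ)) := by
    intro n hn
    unfold ms
    rw [Finset.prod_range]
    congr 1
    refine Finset.prod_congr rfl fun v _ => ?_
    rw [hE v n hn]
  have hcnt : ∀ N, (cnt P b α N : ℝ) = ∑ n ∈ Icc 1 N,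
      if (n.Prime ∧ ∀ v : Fin k, (⌊α v * (P v).eval (n : ℝ)⌋ + b v).toNat.Prime) then (1:ℝ) else 0 := by
    intro N
    unfold cnt
    rw [Finset.sum_boole]
  have hc1 := fun N => fin_diff _ _ n0 (fun n hn => (hxs n hn).symm) N
  have hc2 := fun N => fin_diff _ _ n0 (fun n hn => (hms n hn).symm) N
  constructor
  · have e1 : ∏ v : Fin k, 1 / ((P v).natDegree : ℝ) = ∏ v ∈ range k, 1 / d v := by
      rw [Finset.prod_range]
      refine Finset.prod_congr rfl fun v _ => ?_
      simp only [hd', hPe1]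
    rw [e1]
    have h3 := const_small (1 + k) _ _ hc1
    have h4 : Tendsto (fun N : ℕ => (Real.log (N:ℝ)) ^ (1 + k) / N * ((∑ n ∈ Icc 1 N,
      if (n.Prime ∧ ∀ v : Fin k, (⌊α v * (P v).eval (n : ℝ)⌋ + b v).toNat.Prime) then (1:ℝ) else 0) -
        ∑ n ∈ Icc 1 N, pr n * xs be L (al s k ω) k n)) atTop (𝓝 0) := by
      refine squeeze_zero_norm' ?_ h3
      filter_upwards [eventually_ge_atTop 1] with N hN
      have : 0 ≤ Real.log (N:ℝ) := Real.log_nonneg (by exact_mod_cast hN)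
      rw [norm_mul, Real.norm_of_nonneg (by positivity : 0 ≤ (Real.log (N:ℝ)) ^ (1 + k) / N), Real.norm_eq_abs]
    have h5 := h1.add h4
    rw [add_zero] at h5
    refine h5.congr fun N => ?_
    rw [hcnt]
    ring
  · intro K
    have h3 := ((h2 K).add (const_small K _ _ hc1)).add (const_small K _ _ hc2)
    rw [add_zero, add_zero] at h3
    refine squeeze_zero' ?_ ?_ h3
    · filter_upwards [eventually_ge_atTop 1] with N hN
      have : 0 ≤ Real.log (N:ℝ) := Real.log_nonneg (by exact_mod_cast hN)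
      positivity
    · filter_upwards [eventually_ge_atTop 1] with N hN
      have : 0 ≤ Real.log (N:ℝ) := Real.log_nonneg (by exact_mod_cast hN)
      rw [← mul_add, ← mul_add]
      refine mul_le_mul_of_nonneg_left ?_ (by positivity)
      rw [hcnt, mt, Finset.sum_sub_distrib]
      set a1 := ∑ n ∈ Icc 1 N, if (n.Prime ∧ ∀ v : Fin k, (⌊α v * (P v).eval (n : ℝ)⌋ + b v).toNat.Prime) then (1:ℝ) else 0
      set a2 := ∑ n ∈ Icc 1 N, pr n * xs be L (al s k ω) k n
      set a3 := ∑ n ∈ Icc 1 N, 1 / Real.log n * ms L (al s k ω) k n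
      set a4 := ∑ n ∈ Icc 1 N, 1 / Real.log n * ∏ v, 1 / Real.log (α v * (P v).eval (n : ℝ))
      have e1 : a1 - a4 = (a2 - a3) + (a1 - a2) - (a4 - a3) := by ring
      rw [e1]
      refine (abs_sub _ _).trans ?_
      have := abs_add_le (a2 - a3) (a1 - a2)
      linarith

theorem main_poly (hphp : S_PHP) (hpn : S_PN) {k : ℕ} (P : Fin k → ℝ[X]) (hP : ∀ v, 0 < (P v).leadingCoeff)
    (hD : ∀ v, 0 < (P v).natDegree) :
    ∀ᵐ α : Fin k → ℝ, (∀ i, 0 < α i) → ∀ b : Fin k → ℤ, Good P b α := by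
  have h1 : ∀ b : Fin k → ℤ, ∀ᵐ α ∂((volume : Measure (Fin k → ℝ)).restrict {α | ∀ i, 0 < α i}), Good P b α :=
    fun b => Pool.Agent.N262.T.cu k _ fun s => cube_good hphp hpn P hP hD b s
  have h2 := ae_all_iff.mpr h1
  have hm : MeasurableSet {α : Fin k → ℝ | ∀ i, 0 < α i} := by
    rw [Set.ofPred_forall]
    exact MeasurableSet.iInter fun i => measurableSet_lt measurable_const (measurable_pi_apply i)
  rwa [ae_restrict_iff' hm] at h2

/-- the number of primes `p ≤ N` for which all the `⌊f_v(p)⌋ + b_v` are primes -/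
noncomputable def rcnt {k : ℕ} (d : Fin k → ℕ) (a : (v : Fin k) → Fin (d v + 1) → ℝ) (b : Fin k → ℤ) (N : ℕ) : ℕ :=
  #((Icc 1 N).filter fun n : ℕ => n.Prime ∧ ∀ v, (⌊pl (a v) n⌋ + b v).toNat.Prime)

noncomputable def rmt {k : ℕ} (d : Fin k → ℕ) (a : (v : Fin k) → Fin (d v + 1) → ℝ) (N : ℕ) : ℝ :=
  ∑ n ∈ Icc 1 N, 1 / Real.log n * ∏ v, 1 / Real.log (pl (a v) n)

/-- the good coefficients -/
def RGood {k : ℕ} (d : Fin k → ℕ) (a : (v : Fin k) → Fin (d v + 1) → ℝ) : Prop :=
  ∀ b : Fin k → ℤ,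
    Tendsto (fun N : ℕ => (rcnt d a b N : ℝ) * (Real.log N) ^ (1 + k) / N) atTop (𝓝 (∏ v, 1 / (d v : ℝ))) ∧
    ∀ K : ℕ, Tendsto (fun N : ℕ => (Real.log N) ^ K / N * |(rcnt d a b N : ℝ) - rmt d a N|) atTop (𝓝 0)

lemma rcnt_meas {k : ℕ} (d : Fin k → ℕ) (b : Fin k → ℤ) (N : ℕ) :
    Measurable fun a : (v : Fin k) → Fin (d v + 1) → ℝ => (rcnt d a b N : ℝ) := by
  have h1 : (fun a : (v : Fin k) → Fin (d v + 1) → ℝ => (rcnt d a b N : ℝ)) = fun a => ∑ n ∈ Icc 1 N, pr n * ∏ v,
      if ((vl (b v) (pl (a v) n))).Prime then (1:ℝ) else 0 := by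
    funext a
    unfold rcnt
    rw [← Finset.sum_boole]
    refine Finset.sum_congr rfl fun n _ => ?_
    unfold pr
    by_cases hp : n.Prime
    · rw [if_pos hp, one_mul]
      split_ifs with h
      · symm
        refine Finset.prod_eq_one fun v _ => ?_
        unfold vl
        rw [if_pos (h.2 v)]
      · symm
        have h' : ¬ ∀ v : Fin k, (⌊pl (a v) n⌋ + b v).toNat.Prime := fun hh => h ⟨hp, hh⟩
        push Not at h'
        obtain ⟨v, hv⟩ := h'
        refine Finset.prod_eq_zero (Finset.mem_univ v) ?_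
        unfold vl
        rw [if_neg hv]
    · rw [if_neg hp, zero_mul, if_neg fun hh => hp hh.1]
  rw [h1]
  refine Finset.measurable_fun_sum _ fun n _ => Measurable.const_mul (Finset.measurable_fun_prod _ fun v _ => ?_) _
  have h2 : Measurable fun m : ℕ => if m.Prime then (1:ℝ) else 0 := measurable_of_countable _
  exact h2.comp ((vl_meas _).comp (pl_meas d v n))

lemma rmt_meas {k : ℕ} (d : Fin k → ℕ) (N : ℕ) :
    Measurable fun a : (v : Fin k) → Fin (d v + 1) → ℝ => rmt d a N := by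
  unfold rmt
  refine Finset.measurable_fun_sum _ fun n _ => Measurable.const_mul (Finset.measurable_fun_prod _ fun v _ => ?_) _
  exact Measurable.const_div (Real.measurable_log.comp (pl_meas d v n)) 1

lemma RGood_meas {k : ℕ} (d : Fin k → ℕ) : MeasurableSet {a : (v : Fin k) → Fin (d v + 1) → ℝ | RGood d a} := by
  unfold RGood
  rw [Set.ofPred_forall]
  refine MeasurableSet.iInter fun b => ?_
  rw [Set.ofPred_and]
  refine MeasurableSet.inter ?_ ?_
  · exact measurableSet_tendsto _ fun N => ((rcnt_meas d b N).mul_const _).div_const _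
  · rw [Set.ofPred_forall]
    refine MeasurableSet.iInter fun K => ?_
    exact measurableSet_tendsto _ fun N => (((rcnt_meas d b N).sub (rmt_meas d N)).abs).const_mul _

theorem main_all (hphp : S_PHP) (hpn : S_PN) {k : ℕ} (d : Fin k → ℕ) (hd : ∀ v, 0 < d v) :
    ∀ᵐ a : (v : Fin k) → Fin (d v + 1) → ℝ, (∀ v, 0 < a v (Fin.last (d v))) → RGood d a := by
  refine Pool.Agent.N72.S.fc k d (RGood d) (RGood_meas d) fun β => ?_
  set P : Fin k → ℝ[X] := fun v => X ^ (d v) + ∑ j : Fin (d v), C (β v j) * X ^ (j : ℕ) with hP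
  have hdeg : ∀ v, (∑ j : Fin (d v), C (β v j) * X ^ (j : ℕ) : ℝ[X]).degree < (d v : ℕ) := by
    intro v
    refine (Polynomial.degree_sum_le _ _).trans_lt ?_
    rw [Finset.sup_lt_iff (WithBot.bot_lt_coe _)]
    intro j _
    refine (Polynomial.degree_C_mul_X_pow_le _ _).trans_lt ?_
    exact_mod_cast j.2
  have hmon : ∀ v, (P v).Monic := fun v => Polynomial.monic_X_pow_add (hdeg v)
  have hnd : ∀ v, (P v).natDegree = d v := by
    intro v
    have h1 : (P v).degree = (d v : ℕ) := by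
      simp only [hP]
      rw [Polynomial.degree_add_eq_left_of_degree_lt (by rw [Polynomial.degree_X_pow]; exact hdeg v),
        Polynomial.degree_X_pow]
    exact Polynomial.natDegree_eq_of_degree_eq_some h1
  have hev : ∀ (v : Fin k) (α x : ℝ),
      pl (fun j : Fin (d v + 1) => α * (if h : (j : ℕ) < d v then β v ⟨j, h⟩ else 1)) x = α * (P v).eval x := by
    intro v α x
    unfold pl
    simp only [hP, eval_add, eval_pow, eval_X, eval_finsetSum, eval_mul, eval_C]
    rw [Fin.sum_univ_castSucc]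
    simp only [Fin.val_castSucc, Fin.is_lt, dif_pos, Fin.val_last, lt_irrefl, dif_neg, not_false_iff, mul_one]
    rw [mul_add, add_comm, Finset.mul_sum]
    congr 1
    refine Finset.sum_congr rfl fun j _ => ?_
    ring
  have h1 := main_poly hphp hpn P (fun v => by rw [(hmon v).leadingCoeff]; exact one_pos) (fun v => by rw [hnd]; exact hd v)
  filter_upwards [h1] with α hα hpos b
  obtain ⟨h2, h3⟩ := hα hpos b
  have ec : ∀ N, rcnt d (fun v j => α v * (if h : (j : ℕ) < d v then β v ⟨j, h⟩ else 1)) b N = cnt P b α N := by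
    intro N
    unfold rcnt cnt
    congr 1
    refine Finset.filter_congr fun n _ => ?_
    simp only [hev]
  have em : ∀ N, rmt d (fun v j => α v * (if h : (j : ℕ) < d v then β v ⟨j, h⟩ else 1)) N = mt P α N := by
    intro N
    unfold rmt mt
    refine Finset.sum_congr rfl fun n _ => ?_
    congr 1
    refine Finset.prod_congr rfl fun v _ => ?_
    rw [hev]
  refine ⟨?_, fun K => ?_⟩
  · simp only [ec]
    simp only [hnd] at h2
    exact h2
  · simp only [ec, em]
    exact h3 K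

end Pool.Agent.N798.S2
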